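import Pool.Agent.Lib.LG.FrameGirth

/-!
Logarithmic girth for cosimple matroids that are, on a dependent set of bounded connectivity,
a bounded rank perturbation of a frame matrix over a finite field.
-/

open scoped Matroid

namespace Pool.Agent.Results.MP_71775e_co.FramePerturbation

/-- Let `F` be a finite field and `s, k` natural numbers. There is a constant `c` such that the
following holds. Let `M` be a cosimple matroid represented over `F` by the columns `v x`, and let
`A` be a dependent set of `M` with connectivity `r(A) + r(E - A) - r(E) ≤ k`, such that on `A` the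
columns are `v x = a x + p x`, where every `a x` has at most two nonzero coordinates and the `p x`
span a space of dimension at most `s`. Then `A` contains a circuit of `M` with at most
`c * log (r(A) + 2)` elements. -/
theorem result : ∀ (F : Type) [Field F] [Fintype F] (s k : ℕ),
    ∃ c : ℕ, ∀ (α : Type) [Fintype α] (M : Matroid α) (m : ℕ) (v a p : α → (Fin m → F)),
      (∀ I : Set α, M.Indep I ↔ (I ⊆ M.E ∧ LinearIndependent F (fun x : I => v x))) →
      (∀ I : Set α, I ⊆ M.E → I.ncard ≤ 2 → M✶.Indep I) →
      ∀ A : Set α, M.Dep A → M.eRk A + M.eRk (M.E \ A) ≤ M.eRk M.E + k →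
      (∀ x ∈ A, v x = a x + p x) →
      (∀ x ∈ A, {i | a x i ≠ 0}.ncard ≤ 2) →
      Module.finrank F (Submodule.span F (p '' A)) ≤ s →
      ∀ B : Set α, M.IsBasis B A →
        ∃ C : Set α, C ⊆ A ∧ M.IsCircuit C ∧
          (C.ncard : ℝ) ≤ (c : ℝ) * Real.log ((B.ncard : ℝ) + 2) := by
  intro F _ _ s k
  exact LG.frame_girth F s k

end Pool.Agent.Results.MP_71775e_co.FramePerturbation
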